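import Mathlib
import Pool.Agent.H11.Woody
import Pool.Agent.H11.Girth

namespace Pool.Agent.Results.MP_8cd00c_co.GirthCounterexample

open Pool.Agent.H11.Woody Pool.Agent.H11.Girth SimpleGraph

def Two {V : Type} (H : SimpleGraph V) : Prop :=
  ∃ A B : SimpleGraph V, A.IsAcyclic ∧ B.IsAcyclic ∧ H ≤ A ⊔ B

theorem arb_le {V : Type} {H : SimpleGraph V} (h : Two H) : arb H ≤ 2 := by
  classical
  obtain ⟨A, B, hA, hB, hle⟩ := h
  apply Nat.sInf_le
  refine ⟨fun e => if e ∈ A.edgeSet then 0 else 1, fun e _ => by dsimp only; split_ifs <;> omega,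
    fun v w hw => ?_⟩
  by_contra hno
  push Not at hno
  by_cases h1 : ∀ e ∈ w.edges, e ∈ A.edgeSet
  · exact hA _ (hw.transfer h1)
  · push Not at h1
    obtain ⟨f, hf, hfA⟩ := h1
    refine hB _ (hw.transfer (H := B) (fun e he => ?_))
    have h2 := hno f hf e he
    have h3 := edgeSet_mono hle (w.edges_subset_edgeSet he)
    rw [edgeSet_sup] at h3
    rcases h3 with h3 | h3
    · simp [hfA, h3] at h2
    · exact h3

def cls {V : Type} (H : SimpleGraph V) (c : Sym2 V → ℕ) (i : ℕ) : SimpleGraph V where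
  Adj a b := H.Adj a b ∧ c s(a, b) = i
  symm := ⟨fun a b h => ⟨h.1.symm, by rw [Sym2.eq_swap]; exact h.2⟩⟩
  loopless := ⟨fun a h => H.irrefl h.1⟩

theorem cls_mem {V : Type} {H : SimpleGraph V} {c : Sym2 V → ℕ} {i : ℕ} {e : Sym2 V}
    (h : e ∈ (cls H c i).edgeSet) : e ∈ H.edgeSet ∧ c e = i := by
  induction e using Sym2.ind with
  | h a b => exact h

theorem cls_acyclic {V : Type} {H : SimpleGraph V} {c : Sym2 V → ℕ} (hc : IsWoody H c) (i : ℕ) :
    (cls H c i).IsAcyclic := by
  intro v w hw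
  have h1 : ∀ e ∈ w.edges, e ∈ H.edgeSet := fun e he => (cls_mem (w.edges_subset_edgeSet he)).1
  obtain ⟨f, hf, g, hg, h⟩ := hc v _ (hw.transfer h1)
  rw [Walk.edges_transfer] at hf hg
  exact h ((cls_mem (w.edges_subset_edgeSet hf)).2.trans
    (cls_mem (w.edges_subset_edgeSet hg)).2.symm)

theorem key {V : Type} {H : SimpleGraph V} (hH : ¬ Two H) {u v : V} (huv : u ≠ v)
    (c : Sym2 V → ℕ) (hc : ∀ e ∈ (H.deleteEdges {s(u, v)}).edgeSet, c e < 2) :
    ¬ IsStronglyWoody (H.deleteEdges {s(u, v)}) c := by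
  classical
  intro hs
  set H' := H.deleteEdges {s(u, v)} with hH'
  have hA := cls_acyclic hs.woody 0
  have hB := cls_acyclic hs.woody 1
  have cov : ∀ a b, H.Adj a b → s(a, b) = s(u, v) ∨ (cls H' c 0).Adj a b ∨
      (cls H' c 1).Adj a b := by
    intro a b hab
    by_cases h : s(a, b) = s(u, v)
    · exact Or.inl h
    · have h1 : H'.Adj a b := by simp only [hH', deleteEdges_adj]; exact ⟨hab, h⟩
      have := hc s(a, b) h1
      rcases Nat.lt_succ_iff_lt_or_eq.mp this with h2 | h2
      · exact Or.inr (Or.inl ⟨h1, by omega⟩)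
      · exact Or.inr (Or.inr ⟨h1, h2⟩)
  have ed : ∀ {a b x y : V}, a ≠ b → s(a, b) = s(x, y) → (edge x y).Adj a b := by
    intro a b x y h1 h2
    rw [edge_adj]
    exact ⟨Sym2.eq_iff.mp h2, h1⟩
  by_cases hr : (cls H' c 0).Reachable u v
  · obtain ⟨p, hp⟩ := hr.exists_isPath
    cases p with
    | nil => exact huv rfl
    | @cons _ x _ h q =>
      rw [Walk.cons_isPath_iff] at hp
      by_cases hr2 : (cls H' c 1).Reachable x u
      · obtain ⟨r, hr⟩ := hr2.exists_isPath
        have h1 : ∀ e ∈ r.edges, e ∈ H'.edgeSet :=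
          fun e he => (cls_mem (r.edges_subset_edgeSet he)).1
        have h2 : ∀ e ∈ r.edges, c e = 1 := fun e he => (cls_mem (r.edges_subset_edgeSet he)).2
        have hcyc : (Walk.cons h.1 (r.transfer H' h1)).IsCycle := by
          rw [Walk.cons_isCycle_iff]
          refine ⟨hr.transfer h1, ?_⟩
          rw [Walk.edges_transfer]
          intro he
          have := h2 _ he
          have := h.2
          omega
        obtain ⟨f, hf, g, hg, k1, k2, k3⟩ := hs u _ hcyc s(u, x) (by simp)
        simp only [Walk.edges_cons, Walk.edges_transfer, List.mem_cons] at hf hg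
        exact k3 ((h2 f (hf.resolve_left k1)).trans (h2 g (hg.resolve_left k2)).symm)
      · apply hH
        have hbr := isAcyclic_iff_forall_adj_isBridge.mp hA h
        rw [isBridge_iff] at hbr
        have hq : ((cls H' c 0).deleteEdges {s(u, x)}).Reachable x v := by
          refine ⟨q.toDeleteEdges _ ?_⟩
          intro e he h0
          rw [Set.mem_singleton_iff] at h0
          subst h0
          exact hp.2 (q.fst_mem_support_of_mem_edges he)
        refine ⟨((cls H' c 0).deleteEdges {s(u, x)}) ⊔ edge u v, cls H' c 1 ⊔ edge x u,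
          (hA.anti (deleteEdges_le _)).sup_edge_of_not_reachable
            (fun h0 => hbr (h0.trans hq.symm)),
          hB.sup_edge_of_not_reachable hr2, fun a b hab => ?_⟩
        rcases cov a b hab with h0 | h0 | h0
        · exact Or.inl (Or.inr (ed hab.ne h0))
        · by_cases h3 : s(a, b) = s(u, x)
          · exact Or.inr (Or.inr (ed hab.ne (h3.trans Sym2.eq_swap)))
          · exact Or.inl (Or.inl (by rw [deleteEdges_adj]; exact ⟨h0, h3⟩))
        · exact Or.inr (Or.inl h0)
  · apply hH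
    refine ⟨cls H' c 0 ⊔ edge u v, cls H' c 1, hA.sup_edge_of_not_reachable hr, hB,
      fun a b hab => ?_⟩
    rcases cov a b hab with h0 | h0 | h0
    · exact Or.inl (Or.inr (ed hab.ne h0))
    · exact Or.inl (Or.inl h0)
    · exact Or.inr h0

theorem result : ∃ k : ℕ, 1 ≤ k ∧ ∀ g : ℕ, ∃ (V : Type) (_ : Finite V) (G : SimpleGraph V),
    arb G ≤ k ∧ (g : ℕ∞) ≤ G.egirth ∧ arb G < strongArb G := by
  refine ⟨2, by norm_num, fun g => ?_⟩
  obtain ⟨n, G, hn, hg, hm⟩ := exists_dense_girth g 4
  have hG : ¬ Two G := by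
    rintro ⟨A, B, hA, hB, hle⟩
    have h1 := acyclic_card hn hA
    have h2 := acyclic_card hn hB
    have h3 := Set.ncard_le_ncard (edgeSet_mono hle)
    rw [edgeSet_sup] at h3
    have h4 := Set.ncard_union_le A.edgeSet B.edgeSet
    omega
  obtain ⟨H, hHG, hH⟩ := Finite.exists_le_minimal (p := fun H => ¬ Two H) hG
  have hne : H ≠ ⊥ := by
    rintro rfl
    exact hH.prop ⟨⊥, ⊥, isAcyclic_bot, isAcyclic_bot, bot_le⟩
  obtain ⟨u, v, huv⟩ := ne_bot_iff_exists_adj.mp hne
  have hT : Two (H.deleteEdges {s(u, v)}) := by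
    by_contra h
    have := hH.le_of_le h (deleteEdges_le _) huv
    simp at this
  refine ⟨Fin n, inferInstance, H.deleteEdges {s(u, v)}, arb_le hT,
    hg.trans (egirth_anti ((deleteEdges_le _).trans hHG)), ?_⟩
  have h3 : 3 ≤ strongArb (H.deleteEdges {s(u, v)}) := by
    refine le_csInf (strong_nonempty _) ?_
    rintro k ⟨c, hc, hs⟩
    by_contra hk
    exact key hH.prop huv.ne c (fun e he => by have := hc e he; omega) hs
  have := arb_le hT
  omega

end Pool.Agent.Results.MP_8cd00c_co.GirthCounterexample
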